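import Pool.Agent.P8H18.RR.Stm4

/-! Project DS, package CON: connected families have a spectral gap. -/

set_option autoImplicit false

namespace Pool.Agent.P8H68.DS

open Finset
open Pool.Agent.P8H18.DS (Om Gap S_CON)

/-- the quadratic form -/
noncomputable def q (RR : Finset (Finset Om)) (F : Om → ℝ) : ℝ := ∑ R ∈ RR, (∑ w ∈ R, F w) ^ 2

lemma q_cont (RR : Finset (Finset Om)) : Continuous (q RR) :=
  continuous_finset_sum _ fun _ _ => (continuous_finset_sum _ fun w _ => continuous_apply w).pow 2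

/-- the unit sphere of the functions with sum zero -/
def K : Set (Om → ℝ) := {F | ∑ w, F w = 0 ∧ ∑ w, F w ^ 2 = 1}

lemma K_compact : IsCompact K := by
  have h1 : IsCompact (Set.univ.pi fun _ : Om => Set.Icc (-1 : ℝ) 1) :=
    isCompact_univ_pi fun _ => isCompact_Icc
  refine h1.of_isClosed_subset ?_ ?_
  · exact (isClosed_eq (continuous_finset_sum _ fun w _ => continuous_apply w)
      continuous_const).inter (isClosed_eq
        (continuous_finset_sum _ fun w _ => (continuous_apply w).pow 2) continuous_const)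
  · rintro F ⟨-, hF⟩ w -
    have h2 : F w ^ 2 ≤ ∑ w, F w ^ 2 :=
      Finset.single_le_sum (f := fun w => F w ^ 2) (fun _ _ => sq_nonneg _) (mem_univ w)
    rw [hF] at h2
    exact abs_le.1 (abs_le_of_sq_le_sq (by linarith) (by norm_num))

lemma normalise {F : Om → ℝ} (h0 : ∑ w, F w = 0) (hN : 0 < ∑ w, F w ^ 2) :
    (fun w => F w / √(∑ w, F w ^ 2)) ∈ K := by
  constructor
  · rw [← Finset.sum_div, h0, zero_div]
  · simp only [div_pow]
    rw [← Finset.sum_div, Real.sq_sqrt hN.le, div_self hN.ne']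

lemma q_div (RR : Finset (Finset Om)) (F : Om → ℝ) (c : ℝ) :
    q RR (fun w => F w / c) = q RR F / c ^ 2 := by
  unfold q
  rw [Finset.sum_div]
  refine Finset.sum_congr rfl fun R _ => ?_
  rw [← Finset.sum_div, div_pow]

/-- package CON -/
theorem con : S_CON := by
  classical
  intro s RR hne hcard hdeg hconn
  have hs : 1 ≤ s := by
    by_contra h
    have hs0 : s = 0 := by omega
    have h1 := hconn {((0 : Fin 10), (0 : Fin 10))} (fun R hR => Or.inl (by
      have h2 : R = ∅ := Finset.card_eq_zero.1 ((hcard R hR).trans hs0)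
      rw [h2]
      exact Finset.empty_subset _))
    rcases h1 with h1 | h1
    · exact Finset.singleton_ne_empty _ h1
    · have h2 : ((1 : Fin 10), (0 : Fin 10)) ∈ ({((0 : Fin 10), (0 : Fin 10))} : Finset Om) := by
        rw [h1]
        exact mem_univ _
      rw [Finset.mem_singleton] at h2
      exact absurd h2 (by decide)
  obtain ⟨w0, hw0⟩ : ∃ w0 : Om, w0 = (0, 0) := ⟨_, rfl⟩
  obtain ⟨d, hd0⟩ : ∃ d : ℕ, d = (RR.filter (fun R => w0 ∈ R)).card := ⟨_, rfl⟩
  have hd : ∀ w : Om, (RR.filter (fun R => w ∈ R)).card = d := fun w => by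
    rw [hd0]
    exact hdeg w w0
  have hcount : ∀ G : Om → ℝ, ∑ R ∈ RR, ∑ w ∈ R, G w = d * ∑ w, G w := by
    intro G
    calc ∑ R ∈ RR, ∑ w ∈ R, G w = ∑ R ∈ RR, ∑ w, (if w ∈ R then G w else 0) := by
          refine Finset.sum_congr rfl fun R _ => ?_
          rw [Finset.sum_ite_mem, Finset.univ_inter]
      _ = ∑ w, ∑ R ∈ RR, (if w ∈ R then G w else 0) := Finset.sum_comm
      _ = ∑ w, (d : ℝ) * G w := by
          refine Finset.sum_congr rfl fun w _ => ?_
          rw [← Finset.sum_filter, Finset.sum_const, nsmul_eq_mul, hd w]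
      _ = d * ∑ w, G w := by rw [Finset.mul_sum]
  have hOm : (Fintype.card Om : ℝ) = 100 := by
    rw [Fintype.card_prod, Fintype.card_fin]
    norm_num
  have honeR : (100 : ℝ) * d = s * RR.card := by
    have h1 := hcount fun _ => 1
    have h2 : ∑ R ∈ RR, ∑ w ∈ R, (1 : ℝ) = RR.card * s := by
      rw [Finset.sum_congr rfl fun R hR => by
        rw [Finset.sum_const, nsmul_eq_mul, mul_one, hcard R hR], Finset.sum_const, nsmul_eq_mul]
    rw [h2, Finset.sum_const, nsmul_eq_mul, mul_one, Finset.card_univ, hOm] at h1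
    linarith
  have hone : 100 * d = s * RR.card := by exact_mod_cast honeR
  have hRR : 1 ≤ RR.card := Finset.card_pos.2 hne
  have hd1 : 1 ≤ d := by
    by_contra h
    have h1 : d = 0 := by omega
    rw [h1] at hone
    have h2 : 0 < s * RR.card := Nat.mul_pos hs hRR
    omega
  have hs' : (0 : ℝ) < s := by exact_mod_cast hs
  have hd' : (0 : ℝ) < d := by exact_mod_cast hd1
  have hfin : ∀ lam : ℝ, 0 ≤ lam → (∀ F ∈ K, q RR F ≤ lam * (s * d)) →
      ∀ F : Om → ℝ, ∑ w, F w = 0 →
        ∑ R ∈ RR, (∑ w ∈ R, F w) ^ 2 ≤ lam * ((s : ℝ) ^ 2 / 100) * RR.card * ∑ w, F w ^ 2 := by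
    intro lam hlam hK F hF
    have e1 : lam * ((s : ℝ) ^ 2 / 100) * RR.card = lam * (s * d) := by
      have : (s : ℝ) ^ 2 / 100 * RR.card = s * d := by
        rw [sq, mul_div_assoc, mul_assoc, div_mul_eq_mul_div, ← honeR]
        ring
      rw [mul_assoc, this]
    rw [e1]
    rcases (Finset.sum_nonneg fun w (_ : w ∈ (univ : Finset Om)) =>
      sq_nonneg (F w)).eq_or_lt with h0 | h0
    · have h1 : ∀ w, F w = 0 := fun w => by
        have := (Finset.sum_eq_zero_iff_of_nonneg fun w _ => sq_nonneg (F w)).1 h0.symm w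
          (mem_univ w)
        exact pow_eq_zero_iff (two_ne_zero) |>.1 this
      rw [← h0, mul_zero]
      refine le_of_eq (Finset.sum_eq_zero fun R _ => ?_)
      rw [Finset.sum_eq_zero fun w _ => h1 w]
      norm_num
    · have h1 := hK _ (normalise hF h0)
      rw [q_div, Real.sq_sqrt h0.le, div_le_iff₀ h0] at h1
      exact h1
  have hGap : ∀ lam : ℝ, 0 ≤ lam → (∀ F ∈ K, q RR F ≤ lam * (s * d)) → Gap s lam RR :=
    fun lam hlam hK => ⟨hne, hcard, fun w => by rw [hd w]; exact hone, hfin lam hlam hK⟩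
  rcases K.eq_empty_or_nonempty with hKe | hKn
  · exact ⟨0, le_rfl, by norm_num, hGap 0 le_rfl fun F hF => by
      rw [hKe] at hF
      exact absurd hF (Set.notMem_empty F)⟩
  obtain ⟨F0, hF0, hmax⟩ := K_compact.exists_isMaxOn hKn (q_cont RR).continuousOn
  have hq0 : 0 ≤ q RR F0 := Finset.sum_nonneg fun _ _ => sq_nonneg _
  have hcs : ∀ R ∈ RR, (∑ w ∈ R, F0 w) ^ 2 ≤ s * ∑ w ∈ R, F0 w ^ 2 := by
    intro R hR
    have h := sq_sum_le_card_mul_sum_sq (s := R) (f := F0)
    rwa [hcard R hR] at h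
  have htot : ∑ R ∈ RR, (s : ℝ) * ∑ w ∈ R, F0 w ^ 2 = s * d := by
    rw [← Finset.mul_sum, hcount fun w => F0 w ^ 2, hF0.2, mul_one]
  have hle : q RR F0 ≤ s * d := by
    rw [← htot]
    exact Finset.sum_le_sum hcs
  have hlt : q RR F0 < s * d := by
    refine lt_of_le_of_ne hle fun heq => ?_
    have h1 : ∑ R ∈ RR, ((s : ℝ) * ∑ w ∈ R, F0 w ^ 2 - (∑ w ∈ R, F0 w) ^ 2) = 0 := by
      rw [Finset.sum_sub_distrib, htot, ← heq]
      exact sub_self _
    have h2 := (Finset.sum_eq_zero_iff_of_nonneg fun R hR => sub_nonneg.2 (hcs R hR)).1 h1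
    have h3 : ∀ R ∈ RR, ∀ w ∈ R, F0 w = (∑ w ∈ R, F0 w) / s := by
      intro R hR
      set m : ℝ := (∑ w ∈ R, F0 w) / s with hm
      have h4 : ∑ w ∈ R, F0 w = s * m := by
        rw [hm]
        field_simp
      have h5 : ∑ w ∈ R, (F0 w - m) ^ 2 = 0 := by
        have h6 : ∑ w ∈ R, (F0 w - m) ^ 2 =
            ∑ w ∈ R, F0 w ^ 2 - 2 * m * ∑ w ∈ R, F0 w + s * m ^ 2 := by
          have h7 : ∀ w ∈ R, (F0 w - m) ^ 2 = F0 w ^ 2 - 2 * m * F0 w + m ^ 2 := fun w _ => by ring
          rw [Finset.sum_congr rfl h7, Finset.sum_add_distrib, Finset.sum_sub_distrib,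
            ← Finset.mul_sum, Finset.sum_const, nsmul_eq_mul, hcard R hR]
        have h8 := h2 R hR
        rw [h4] at h6 h8
        have h9 : (s : ℝ) * (∑ w ∈ R, F0 w ^ 2 - s * m ^ 2) = 0 := by linarith
        have h10 := (mul_eq_zero.1 h9).resolve_left hs'.ne'
        rw [h6]
        linarith
      intro w hw
      have h6 := (Finset.sum_eq_zero_iff_of_nonneg fun w _ => sq_nonneg (F0 w - m)).1 h5 w hw
      have h7 := pow_eq_zero_iff (two_ne_zero) |>.1 h6
      linarith
    have h4 := hconn (univ.filter fun w => F0 w = F0 w0) (fun R hR => by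
      by_cases h5 : ∃ w ∈ R, F0 w = F0 w0
      · left
        obtain ⟨w, hw, hw'⟩ := h5
        intro v hv
        rw [mem_filter]
        refine ⟨mem_univ v, ?_⟩
        rw [h3 R hR v hv, ← h3 R hR w hw, hw']
      · right
        rw [Finset.disjoint_left]
        intro w hw hw'
        exact h5 ⟨w, hw, (mem_filter.1 hw').2⟩)
    rcases h4 with h4 | h4
    · have h5 : w0 ∈ (univ.filter fun w => F0 w = F0 w0) := mem_filter.2 ⟨mem_univ _, rfl⟩
      rw [h4] at h5
      exact Finset.notMem_empty _ h5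
    · have h5 : ∀ w, F0 w = F0 w0 := fun w => by
        have h6 : w ∈ (univ.filter fun w => F0 w = F0 w0) := by
          rw [h4]
          exact mem_univ w
        exact (mem_filter.1 h6).2
      have h6 := hF0.1
      rw [Finset.sum_congr rfl fun w _ => h5 w, Finset.sum_const, nsmul_eq_mul,
        Finset.card_univ, hOm] at h6
      have h7 : F0 w0 = 0 := by linarith
      have h8 := hF0.2
      rw [Finset.sum_eq_zero fun w _ => by rw [h5 w, h7]; norm_num] at h8
      exact zero_ne_one h8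
  have hsd : (0 : ℝ) < s * d := mul_pos hs' hd'
  refine ⟨q RR F0 / (s * d), div_nonneg hq0 hsd.le, (div_lt_one hsd).2 hlt,
    hGap _ (div_nonneg hq0 hsd.le) fun F hF => ?_⟩
  rw [div_mul_cancel₀ _ hsd.ne']
  exact hmax hF

end Pool.Agent.P8H68.DS
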